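import Pool.Agent.W770.KP.Stm

/-! Part `S_FIN` of the project KP (MP_697303_an): the frozen statement from `SA`. -/

set_option autoImplicit false

open scoped Classical

namespace Pool.Agent.W252.KP

open Pool.Agent.W770.KP

theorem ps_eq {F E : Type} [Field F] [AddCommGroup E] [Module F E] [Fintype E]
    (g : E → ℝ) (a : E) (W : Submodule F E) : ∑ᶠ w : W, g (a + (w : E)) = PS g a W := by
  rw [finsum_eq_sum_of_fintype]
  unfold PS
  have h1 : ∑ x : E, (if x - a ∈ W then g x else 0) = ∑ y : E, (if y ∈ W then g (a + y) else 0) := by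
    rw [← Equiv.sum_comp (Equiv.addLeft a)]
    apply Finset.sum_congr rfl
    intro y _
    simp only [Equiv.coe_addLeft, add_sub_cancel_left]
  rw [h1, ← Finset.sum_filter]
  exact (Finset.sum_subtype (Finset.univ.filter (fun y : E => y ∈ W)) (by simp)
    (fun y => g (a + y))).symm

theorem fin_proof : S_FIN := by
  intro hSA n k hk hkn
  obtain ⟨C, hC, h⟩ := hSA n k hk hkn
  refine ⟨C, hC, ?_⟩
  intro F _ _ f
  have hch : ∀ W : Submodule F (Fin n → F), ∃ a : Fin n → F,
      (∑ᶠ w : W, |f (a + (w : Fin n → F))|) =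
        ⨆ a : Fin n → F, ∑ᶠ w : W, |f (a + (w : Fin n → F))| := by
    intro W
    exact exists_eq_ciSup_of_finite
  choose a ha using hch
  have hmain := h F (Fin n → F) (Module.finrank_fin_fun F) (fun x => |f x|)
    (fun x => abs_nonneg _) a
  have hL : (∑ᶠ W : {W : Submodule F (Fin n → F) // Module.finrank F W = k},
      (⨆ a : Fin n → F, ∑ᶠ w : W.1, |f (a + (w : Fin n → F))|) ^ n) =
      ∑ W ∈ Gr F (Fin n → F) k, (PS (fun x => |f x|) (a W) W) ^ n := by
    rw [finsum_eq_sum_of_fintype]
    rw [Finset.sum_subtype (Gr F (Fin n → F) k) (p := fun W : Submodule F (Fin n → F) => Module.finrank F W = k)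
      (by intro W; simp [Gr])]
    apply Finset.sum_congr rfl
    intro W _
    congr 1
    rw [← ha W.1]
    exact ps_eq (fun x => |f x|) (a W.1) W.1
  have hN : Nat.card {W : Submodule F (Fin n → F) // Module.finrank F W = k} =
      (Gr F (Fin n → F) k).card := by
    rw [Nat.card_eq_fintype_card]
    exact Fintype.card_of_subtype _ (by intro W; simp [Gr])
  rw [hL, hN]
  exact hmain

end Pool.Agent.W252.KP
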